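import Mathlib

set_option autoImplicit false

/-!
# The product of average distance and girth is maximised by the cycle
-/

namespace Pool.Agent.Results.MP_0edf05_co.DistanceGirth

open Finset SimpleGraph

/-- The average distance of a graph: the mean of the distance over all ordered pairs of distinct
vertices (equivalently, over all unordered pairs of distinct vertices). -/
noncomputable def avgDist {V : Type} [Fintype V] (G : SimpleGraph V) : ℝ :=
  (∑ u : V, ∑ v : V, (G.dist u v : ℝ)) / ((Fintype.card V : ℝ) * ((Fintype.card V : ℝ) - 1))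

/-- The bound: `n ^ 3 / (4 (n - 1))` for even `n` and `(n ^ 2 + n) / 4` for odd `n`. -/
noncomputable def bound (n : ℕ) : ℝ :=
  if Even n then (n : ℝ) ^ 3 / (4 * ((n : ℝ) - 1)) else ((n : ℝ) ^ 2 + n) / 4

/-! ### Distances from one vertex in a connected graph -/

theorem exists_dist_eq {V : Type} (G : SimpleGraph V) (hG : G.Connected) (x v : V) (i : ℕ)
    (hi : i ≤ G.dist x v) : ∃ w, G.dist x w = i := by
  obtain ⟨p, hp⟩ := hG.exists_walk_length_eq_dist x v
  refine ⟨p.getVert i, ?_⟩
  have h1 : G.dist x (p.getVert i) ≤ i := by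
    refine (dist_le (p.take i)).trans ?_
    rw [Walk.take_length]
    exact min_le_left _ _
  have h2 : G.dist (p.getVert i) v ≤ G.dist x v - i := by
    refine (dist_le (p.drop i)).trans ?_
    rw [Walk.drop_length, hp]
  have h3 : G.dist x v ≤ G.dist x (p.getVert i) + G.dist (p.getVert i) v := hG.dist_triangle
  omega

theorem level_bound {V : Type} [Fintype V] (G : SimpleGraph V) (hG : G.Connected) (x : V) (j : ℕ) :
    (univ.filter (fun v => j < G.dist x v)).card ≤ Fintype.card V - (j + 1) := by
  classical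
  by_cases h : (univ.filter (fun v => j < G.dist x v)).Nonempty
  · obtain ⟨v, hv⟩ := h
    rw [mem_filter] at hv
    have hex : ∀ i : Fin (j + 1), ∃ w, G.dist x w = i := fun i =>
      exists_dist_eq G hG x v i (by have := i.2; omega)
    choose w hw using hex
    have hinj : Function.Injective w := by
      intro a b hab
      apply Fin.ext
      rw [← hw a, ← hw b, hab]
    have h1 : (univ.image w).card = j + 1 := by
      rw [Finset.card_image_of_injective _ hinj, Finset.card_univ, Fintype.card_fin]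
    have h2 : (univ.image w) ⊆ univ \ (univ.filter (fun v => j < G.dist x v)) := by
      intro y hy
      rw [mem_image] at hy
      obtain ⟨i, _, rfl⟩ := hy
      rw [mem_sdiff, mem_filter]
      refine ⟨mem_univ _, ?_⟩
      rintro ⟨_, h3⟩
      rw [hw i] at h3
      have := i.2
      omega
    have h3 := Finset.card_le_card h2
    rw [h1, Finset.card_sdiff_of_subset (subset_univ _), Finset.card_univ] at h3
    have h4 := Finset.card_le_univ (univ.filter (fun v => j < G.dist x v))
    omega
  · rw [Finset.not_nonempty_iff_eq_empty] at h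
    rw [h]
    simp

/-- The sum of the distances from a vertex is at most `m (m + 1) / 2` in a connected graph on
`m + 1` vertices. -/
theorem transmission {V : Type} [Fintype V] (G : SimpleGraph V) (hG : G.Connected) (x : V) (m : ℕ)
    (hm : Fintype.card V = m + 1) : 2 * ∑ v, G.dist x v ≤ m * (m + 1) := by
  classical
  have hlt : ∀ v, G.dist x v ≤ m := by
    intro v
    obtain ⟨p, hp, hlen⟩ := hG.exists_path_of_dist x v
    have := hp.length_lt
    omega
  have h1 : ∀ v, G.dist x v = ∑ j ∈ range m, (if j < G.dist x v then 1 else 0) := by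
    intro v
    rw [Finset.sum_boole]
    have h2 : (range m).filter (fun j => j < G.dist x v) = range (G.dist x v) := by
      ext j
      rw [mem_filter, mem_range, mem_range]
      have := hlt v
      omega
    rw [h2]
    simp
  have h2 : ∑ v, G.dist x v = ∑ j ∈ range m, (univ.filter (fun v => j < G.dist x v)).card := by
    rw [Finset.sum_congr rfl (fun v _ => h1 v), Finset.sum_comm]
    apply Finset.sum_congr rfl
    intro j _
    rw [Finset.sum_boole]
    simp
  have h3 : ∑ v, G.dist x v ≤ ∑ j ∈ range m, (m - j) := by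
    rw [h2]
    apply Finset.sum_le_sum
    intro j _
    have := level_bound G hG x j
    rw [hm] at this
    omega
  have h4 : ∑ j ∈ range m, (m - j) = ∑ j ∈ range m, (j + 1) := by
    rw [← Finset.sum_range_reflect]
    apply Finset.sum_congr rfl
    intro j hj
    rw [mem_range] at hj
    omega
  have h5 : ∀ k : ℕ, 2 * ∑ j ∈ range k, (j + 1) = k * (k + 1) := by
    intro k
    induction k with
    | zero => simp
    | succ k ih =>
      rw [Finset.sum_range_succ, Nat.mul_add, ih]
      ring
  rw [h4] at h3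
  have := h5 m
  omega

/-- Distances in an induced subgraph are not smaller. -/
theorem dist_induce {V : Type} (G : SimpleGraph V) (S : Set V) (hS : (G.induce S).Connected)
    (x y : S) : G.dist x.1 y.1 ≤ (G.induce S).dist x y := by
  obtain ⟨p, hp⟩ := hS.exists_walk_length_eq_dist x y
  rw [← hp]
  have h := dist_le (p.map (Embedding.induce S).toHom)
  rw [Walk.length_map] at h
  exact h

theorem add_vertex {V : Type} [Fintype V] [DecidableEq V] (G : SimpleGraph V) (S : Finset V) (x : V)
    (hx : x ∉ S) (hS : (G.induce ((insert x S : Finset V) : Set V)).Connected) :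
    2 * ∑ v ∈ S, G.dist x v ≤ S.card * (S.card + 1) := by
  classical
  have hcard : Fintype.card ((insert x S : Finset V) : Set V) = S.card + 1 := by
    rw [← Finset.card_insert_of_notMem hx]
    exact Fintype.card_coe _
  have h1 := transmission (G.induce ((insert x S : Finset V) : Set V)) hS
    ⟨x, by simp⟩ S.card hcard
  refine le_trans (Nat.mul_le_mul_left 2 ?_) h1
  calc ∑ v ∈ S, G.dist x v ≤ ∑ v ∈ insert x S, G.dist x v :=
        Finset.sum_le_sum_of_subset (Finset.subset_insert x S)
    _ = ∑ v : ((insert x S : Finset V) : Set V), G.dist x v.1 := by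
        rw [← Finset.sum_coe_sort]
        rfl
    _ ≤ _ := Finset.sum_le_sum (fun v _ => dist_induce G _ hS ⟨x, by simp⟩ v)

/-- The ordered distance sum of a vertex set. -/
noncomputable def T {V : Type} (G : SimpleGraph V) (S : Finset V) : ℕ :=
  ∑ u ∈ S, ∑ v ∈ S, G.dist u v

theorem T_insert {V : Type} [DecidableEq V] (G : SimpleGraph V) (S : Finset V) (x : V)
    (hx : x ∉ S) : T G (insert x S) = T G S + 2 * ∑ v ∈ S, G.dist x v := by
  unfold T
  rw [Finset.sum_insert hx, Finset.sum_insert hx, dist_self]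
  have h1 : ∑ u ∈ S, ∑ v ∈ insert x S, G.dist u v = ∑ u ∈ S, (G.dist x u + ∑ v ∈ S, G.dist u v) := by
    apply Finset.sum_congr rfl
    intro u _
    rw [Finset.sum_insert hx, dist_comm]
  rw [h1, Finset.sum_add_distrib]
  ring

/-- Growing a connected set to the whole vertex set. -/
theorem grow {V : Type} [Fintype V] (G : SimpleGraph V) (hG : G.Connected) (k : ℕ) :
    ∀ S : Finset V, S.Nonempty → (G.induce (S : Set V)).Connected → Fintype.card V = S.card + k →
      T G univ ≤ T G S + ∑ m ∈ Ico S.card (Fintype.card V), m * (m + 1) := by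
  classical
  induction k with
  | zero =>
    intro S _ _ hcard
    have hS : S = univ := (Finset.card_eq_iff_eq_univ S).mp (by omega)
    rw [hS]
    exact Nat.le_add_right _ _
  | succ k ih =>
    intro S hne hS hcard
    obtain ⟨s, hs⟩ := hne
    have hex : ∃ y, y ∉ S := by
      by_contra hcon
      push Not at hcon
      have : S = univ := Finset.eq_univ_iff_forall.mpr hcon
      have h2 : S.card = Fintype.card V := by rw [this, Finset.card_univ]
      omega
    obtain ⟨y, hy⟩ := hex
    obtain ⟨p⟩ := hG.preconnected s y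
    obtain ⟨d, _, hd1, hd2⟩ := p.exists_boundary_dart (S : Set V) hs hy
    have hd2' : d.snd ∉ S := hd2
    have hconn : (G.induce ((insert d.snd S : Finset V) : Set V)).Connected := by
      have h1 : (G.induce ({d.snd} : Set V)).Preconnected := by
        intro a b
        have : a = b := Subtype.ext (a.2.trans b.2.symm)
        rw [this]
      have h2 := connected_induce_union (G := G) (v := d.snd) (w := d.fst) h1 hS.preconnected
        (Set.mem_singleton _) hd1 d.adj.symm
      rw [Finset.coe_insert, Set.insert_eq]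
      exact h2
    have hcardI : (insert d.snd S).card = S.card + 1 := Finset.card_insert_of_notMem hd2'
    have h3 := ih (insert d.snd S) ⟨_, mem_insert_self _ _⟩ hconn (by omega)
    rw [T_insert G S d.snd hd2', hcardI] at h3
    have h4 := add_vertex G S d.snd hd2' hconn
    have h5 : ∑ m ∈ Ico S.card (Fintype.card V), m * (m + 1) = S.card * (S.card + 1) +
        ∑ m ∈ Ico (S.card + 1) (Fintype.card V), m * (m + 1) :=
      Finset.sum_eq_sum_Ico_succ_bot (by omega) _
    omega

/-! ### Cycles -/

/-- The cyclic distance function. -/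
def cyc (n : ℕ) (d : ℕ) : ℕ := min d (n - d)

theorem sum_cyc (n : ℕ) : ∑ m ∈ range n, cyc n m = n ^ 2 / 4 := by
  have h : ∀ n : ℕ, ∑ m ∈ range n, cyc n m = n ^ 2 / 4 ∧
      ∑ m ∈ range (n + 1), cyc (n + 1) m = (n + 1) ^ 2 / 4 := by
    intro n
    induction n with
    | zero => constructor <;> rfl
    | succ n ih =>
      refine ⟨ih.2, ?_⟩
      have h1 : ∑ m ∈ range (n + 1 + 1), cyc (n + 1 + 1) m =
          ∑ m ∈ range n, cyc n m + (n + 1) := by
        rw [Finset.sum_range_succ']
        have h2 : ∀ m ∈ range (n + 1), cyc (n + 1 + 1) (m + 1) = cyc n m + 1 := by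
          intro m hm
          rw [mem_range] at hm
          unfold cyc
          omega
        rw [Finset.sum_congr rfl h2, Finset.sum_add_distrib, Finset.sum_range_succ]
        have h3 : cyc n n = 0 := by
          unfold cyc
          omega
        have h4 : cyc (n + 1 + 1) 0 = 0 := by
          unfold cyc
          omega
        rw [h3, h4]
        simp
      rw [h1, ih.1]
      have h5 : (n + 1 + 1) ^ 2 = n ^ 2 + 4 * (n + 1) := by ring
      rw [h5]
      omega
  exact (h n).1

theorem sum_cyc_fin (k : ℕ) (i : Fin (k + 3)) :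
    ∑ j : Fin (k + 3), cyc (k + 3) (j - i).val = (k + 3) ^ 2 / 4 := by
  rw [← sum_cyc (k + 3), Finset.sum_range]
  exact Equiv.sum_comp (Equiv.subRight i) (fun d : Fin (k + 3) => cyc (k + 3) d.val)

theorem sub_val_cases {n : ℕ} (i j : Fin n) :
    (i.val ≤ j.val ∧ (j - i).val = j.val - i.val) ∨ (j.val < i.val ∧ (j - i).val = n + j.val - i.val) := by
  rcases le_or_gt i j with h | h
  · exact Or.inl ⟨h, Fin.sub_val_of_le h⟩
  · exact Or.inr ⟨h, Fin.coe_sub_iff_lt.mpr h⟩

theorem ofNat_succ (k m : ℕ) : Fin.ofNat (k + 3) (m + 1) = Fin.ofNat (k + 3) m + 1 := by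
  apply Fin.ext
  rw [Fin.val_add]
  simp only [Fin.val_ofNat]
  have h1 : ((1 : Fin (k + 3)) : ℕ) = 1 := rfl
  rw [h1]
  simp [Nat.add_mod]

theorem dist_le_step {V : Type} (G : SimpleGraph V) (hG : G.Connected) (k : ℕ)
    (f : Fin (k + 3) → V) (hf : ∀ i, G.Adj (f i) (f (i + 1))) (i : Fin (k + 3)) (m : ℕ) :
    G.dist (f i) (f (i + Fin.ofNat (k + 3) m)) ≤ m := by
  induction m with
  | zero =>
    have h1 : i + Fin.ofNat (k + 3) 0 = i := by
      have h2 : Fin.ofNat (k + 3) 0 = 0 := rfl
      rw [h2, add_zero]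
    rw [h1, dist_self]
  | succ m ih =>
    rw [ofNat_succ, ← add_assoc]
    have h2 : G.dist (f (i + Fin.ofNat (k + 3) m)) (f (i + Fin.ofNat (k + 3) m + 1)) = 1 :=
      dist_eq_one_iff_adj.mpr (hf _)
    have h3 : G.dist (f i) (f (i + Fin.ofNat (k + 3) m + 1)) ≤
        G.dist (f i) (f (i + Fin.ofNat (k + 3) m)) +
        G.dist (f (i + Fin.ofNat (k + 3) m)) (f (i + Fin.ofNat (k + 3) m + 1)) :=
      hG.dist_triangle
    omega

theorem dist_le_cyc {V : Type} (G : SimpleGraph V) (hG : G.Connected) (k : ℕ)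
    (f : Fin (k + 3) → V) (hf : ∀ i, G.Adj (f i) (f (i + 1))) (i j : Fin (k + 3)) :
    G.dist (f i) (f j) ≤ cyc (k + 3) (j - i).val := by
  have h0 : ∀ i j : Fin (k + 3), G.dist (f i) (f j) ≤ (j - i).val := by
    intro i j
    have h1 := dist_le_step G hG k f hf i (j - i).val
    have h2 : Fin.ofNat (k + 3) (j - i).val = j - i := by
      apply Fin.ext
      rw [Fin.val_ofNat]
      exact Nat.mod_eq_of_lt (j - i).2
    rw [h2] at h1
    rwa [add_sub_cancel] at h1
  unfold cyc
  apply le_min (h0 i j)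
  by_cases hij : i = j
  · rw [hij, dist_self]
    exact Nat.zero_le _
  · rw [dist_comm]
    refine (h0 j i).trans ?_
    have hne : i.val ≠ j.val := fun h => hij (Fin.ext h)
    rcases sub_val_cases i j with ⟨h1, h2⟩ | ⟨h1, h2⟩ <;>
      rcases sub_val_cases j i with ⟨h3, h4⟩ | ⟨h3, h4⟩ <;> omega

/-- The ordered distance sum of a cycle is at most `g ⌊g² / 4⌋`. -/
theorem T_cycle {V : Type} [DecidableEq V] (G : SimpleGraph V) (hG : G.Connected) (k : ℕ)
    (f : Fin (k + 3) → V) (hf : ∀ i, G.Adj (f i) (f (i + 1))) (hinj : Function.Injective f) :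
    T G (univ.image f) ≤ (k + 3) * ((k + 3) ^ 2 / 4) := by
  unfold T
  rw [Finset.sum_image (fun a _ b _ h => hinj h)]
  calc ∑ i : Fin (k + 3), ∑ v ∈ univ.image f, G.dist (f i) v
      ≤ ∑ i : Fin (k + 3), (k + 3) ^ 2 / 4 := by
        apply Finset.sum_le_sum
        intro i _
        rw [Finset.sum_image (fun a _ b _ h => hinj h), ← sum_cyc_fin k i]
        apply Finset.sum_le_sum
        intro j _
        exact dist_le_cyc G hG k f hf i j
    _ = (k + 3) * ((k + 3) ^ 2 / 4) := by
        rw [Finset.sum_const, Finset.card_univ, Fintype.card_fin, smul_eq_mul]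

theorem adj_succ (k : ℕ) (i : Fin (k + 3)) : (cycleGraph (k + 3)).Adj i (i + 1) := by
  rw [cycleGraph_adj]
  right
  exact add_sub_cancel_left i 1

theorem connected_range {V : Type} [DecidableEq V] (G : SimpleGraph V) (k : ℕ)
    (f : Fin (k + 3) → V) (hf : ∀ i j, (cycleGraph (k + 3)).Adj i j → G.Adj (f i) (f j)) :
    (G.induce ((univ.image f : Finset V) : Set V)).Connected := by
  have h : (cycleGraph (k + 3)).Connected := cycleGraph_connected
  let φ : cycleGraph (k + 3) →g G.induce ((univ.image f : Finset V) : Set V) :=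
    ⟨fun i => ⟨f i, by simp⟩, fun {a b} hab => hf a b hab⟩
  apply h.map φ
  rintro ⟨v, hv⟩
  rw [Finset.mem_coe, mem_image] at hv
  obtain ⟨i, _, rfl⟩ := hv
  exact ⟨i, rfl⟩

theorem sum_Ico (g n : ℕ) (hgn : g ≤ n) (hg : 1 ≤ g) :
    3 * ∑ m ∈ Ico g n, m * (m + 1) + (g - 1) * g * (g + 1) = (n - 1) * n * (n + 1) := by
  induction n, hgn using Nat.le_induction with
  | base => simp
  | succ n hgn ih =>
    rw [Finset.sum_Ico_succ_top hgn, Nat.mul_add]
    obtain ⟨a, rfl⟩ : ∃ a, n = a + 1 := ⟨n - 1, by omega⟩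
    simp only [Nat.add_sub_cancel] at ih ⊢
    have h1 : (a + 1) * (a + 1 + 1) * (a + 1 + 1 + 1) = a * (a + 1) * (a + 1 + 1) +
        3 * ((a + 1) * (a + 1 + 1)) := by ring
    rw [h1, ← ih]
    ring

/-- The polynomial inequality. -/
theorem poly_ineq (g a : ℤ) (hg : 0 ≤ g) (hga : g ≤ a) :
    4 * g * (a * (a + 1) * (a + 2)) - g ^ 4 + 4 * g ^ 2 ≤ 3 * (a * (a + 2)) ^ 2 := by
  obtain ⟨s, rfl⟩ : ∃ s, a = g + s := ⟨a - g, by ring⟩
  have hs : 0 ≤ s := by linarith
  have h1 : 0 ≤ g * s := mul_nonneg hg hs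
  have h2 : 0 ≤ g ^ 2 * s := by positivity
  have h3 : 0 ≤ g * s ^ 2 := by positivity
  have h4 : 0 ≤ g ^ 3 * s := by positivity
  have h5 : 0 ≤ g ^ 2 * s ^ 2 := by positivity
  have h6 : 0 ≤ g * s ^ 3 := by positivity
  have h7 : 0 ≤ s ^ 4 := by positivity
  have h8 : 0 ≤ s ^ 3 := by positivity
  have h9 : 0 ≤ s ^ 2 := by positivity
  nlinarith

/-- Distances in the cycle. -/
theorem cyc_le_dist (k : ℕ) (i j : Fin (k + 3)) :
    cyc (k + 3) (j - i).val ≤ (cycleGraph (k + 3)).dist i j := by
  have hstep : ∀ u v : Fin (k + 3), (cycleGraph (k + 3)).Adj u v →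
      cyc (k + 3) (v - i).val ≤ cyc (k + 3) (u - i).val + 1 := by
    intro u v huv
    have hu := u.2
    have hv := v.2
    rw [cycleGraph_adj'] at huv
    unfold cyc
    rcases huv with h | h
    · rcases sub_val_cases v u with ⟨h1, h2⟩ | ⟨h1, h2⟩ <;>
        rcases sub_val_cases i u with ⟨h3, h4⟩ | ⟨h3, h4⟩ <;>
        rcases sub_val_cases i v with ⟨h5, h6⟩ | ⟨h5, h6⟩ <;> omega
    · rcases sub_val_cases u v with ⟨h1, h2⟩ | ⟨h1, h2⟩ <;>
        rcases sub_val_cases i u with ⟨h3, h4⟩ | ⟨h3, h4⟩ <;>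
        rcases sub_val_cases i v with ⟨h5, h6⟩ | ⟨h5, h6⟩ <;> omega
  have hwalk : ∀ u v : Fin (k + 3), ∀ p : (cycleGraph (k + 3)).Walk u v,
      cyc (k + 3) (v - i).val ≤ cyc (k + 3) (u - i).val + p.length := by
    intro u v p
    induction p with
    | nil => simp
    | cons h p ih =>
      have := hstep _ _ h
      rw [Walk.length_cons]
      omega
  have hconn : (cycleGraph (k + 3)).Connected := cycleGraph_connected
  obtain ⟨p, hp⟩ := hconn.exists_walk_length_eq_dist i j
  have h := hwalk i j p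
  rw [hp] at h
  have h0 : cyc (k + 3) (i - i).val = 0 := by
    rw [sub_self]
    unfold cyc
    simp
  omega

/-- The cycle contains no shorter cycle. -/
theorem contained_cycle (m k : ℕ) (hm : 3 ≤ m) (h : cycleGraph m ⊑ cycleGraph (k + 3)) :
    m = k + 3 := by
  classical
  obtain ⟨l, rfl⟩ : ∃ l, m = l + 3 := ⟨m - 3, by omega⟩
  obtain ⟨f⟩ := h
  have hinj : Function.Injective (fun x => f x) := f.injective
  have hadj : ∀ a b, (cycleGraph (l + 3)).Adj a b → (cycleGraph (k + 3)).Adj (f a) (f b) :=
    fun a b hab => f.toHom.map_rel hab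
  set X : Finset (Fin (k + 3)) := univ.image (fun x => f x) with hX
  have hclosed : ∀ x ∈ X, x + 1 ∈ X := by
    intro x hx
    rw [hX, mem_image] at hx
    obtain ⟨a, _, rfl⟩ := hx
    have h1 := hadj _ _ (adj_succ l a)
    have h2 := hadj (a - 1) a (by
      have := adj_succ l (a - 1)
      rwa [sub_add_cancel] at this)
    rw [cycleGraph_adj] at h1 h2
    have hne : f (a + 1) ≠ f (a - 1) := by
      intro heq
      have h3 : a + 1 = a - 1 := hinj heq
      have h4 : (a + 1) - (a - 1) = 0 := by rw [h3, sub_self]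
      have h5 : (a + 1) - (a - 1) = 1 + 1 := by abel
      rw [h5] at h4
      have h6 := congrArg Fin.val h4
      rw [Fin.val_add] at h6
      have h7 : ((1 : Fin (l + 3)) : ℕ) = 1 := rfl
      rw [h7] at h6
      have h8 : (1 + 1) % (l + 3) = 2 := Nat.mod_eq_of_lt (by omega)
      rw [h8] at h6
      have h9 : ((0 : Fin (l + 3)) : ℕ) = 0 := rfl
      omega
    rw [hX, mem_image]
    rcases h1 with h1 | h1
    · rcases h2 with h2 | h2
      · refine ⟨a - 1, mem_univ _, ?_⟩
        rw [← h2]
        abel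
      · exfalso
        apply hne
        have e1 : f (a + 1) = f a - 1 := by rw [← h1]; abel
        have e2 : f (a - 1) = f a - 1 := by rw [← h2]; abel
        rw [e1, e2]
    · refine ⟨a + 1, mem_univ _, ?_⟩
      rw [← h1]
      abel
  have hall : ∀ j : ℕ, f 0 + Fin.ofNat (k + 3) j ∈ X := by
    intro j
    induction j with
    | zero =>
      have h2 : Fin.ofNat (k + 3) 0 = 0 := rfl
      rw [h2, add_zero, hX, mem_image]
      exact ⟨0, mem_univ _, rfl⟩
    | succ j ih =>
      rw [ofNat_succ, ← add_assoc]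
      exact hclosed _ ih
  have huniv : X = univ := by
    rw [Finset.eq_univ_iff_forall]
    intro y
    have h1 := hall (y - f 0).val
    have h2 : Fin.ofNat (k + 3) (y - f 0).val = y - f 0 := by
      apply Fin.ext
      rw [Fin.val_ofNat]
      exact Nat.mod_eq_of_lt (y - f 0).2
    rw [h2, add_sub_cancel] at h1
    exact h1
  have hc : X.card = l + 3 := by
    rw [hX, Finset.card_image_of_injective _ hinj, Finset.card_univ, Fintype.card_fin]
  rw [huniv, Finset.card_univ, Fintype.card_fin] at hc
  exact hc.symm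

theorem girth_cycle (k : ℕ) : (cycleGraph (k + 3)).girth = k + 3 := by
  have hna : ¬ (cycleGraph (k + 3)).IsAcyclic := fun h =>
    h _ (cycleGraph.isCycle_cycle (n := k))
  obtain ⟨a, w, hw, hlen⟩ := exists_girth_eq_length.mpr hna
  have h3 := three_le_girth hna
  have h4 : cycleGraph (cycleGraph (k + 3)).girth ⊑ cycleGraph (k + 3) :=
    (cycleGraph_isContained_iff (by omega)).mpr ⟨a, w, hw, hlen.symm⟩
  exact contained_cycle _ k h3 h4

/-- A graph of order `n` and girth `n` is the cycle. -/
theorem iso_of_girth {V : Type} [Fintype V] (G : SimpleGraph V) (k : ℕ)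
    (hcard : Fintype.card V = k + 3) (hna : ¬ G.IsAcyclic) (hg : G.girth = k + 3) :
    Nonempty (G ≃g cycleGraph (k + 3)) := by
  obtain ⟨a, w, hw, hlen⟩ := exists_girth_eq_length.mpr hna
  have h4 : cycleGraph (k + 3) ⊑ G :=
    (cycleGraph_isContained_iff (by omega)).mpr ⟨a, w, hw, by omega⟩
  obtain ⟨f⟩ := h4
  have hinj : Function.Injective (fun x => f x) := f.injective
  have hbij : Function.Bijective (fun x => f x) := by
    rw [Fintype.bijective_iff_injective_and_card]
    exact ⟨hinj, by rw [Fintype.card_fin, hcard]⟩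
  have hadj : ∀ a b, (cycleGraph (k + 3)).Adj a b → G.Adj (f a) (f b) :=
    fun a b hab => f.toHom.map_rel hab
  have hlt : ∀ i j : Fin (k + 3), i < j → G.Adj (f i) (f j) → (cycleGraph (k + 3)).Adj i j := by
    intro i j hij hG
    by_contra hcon
    rw [cycleGraph_adj'] at hcon
    push Not at hcon
    have hi := i.2
    have hj := j.2
    have hij' : i.val < j.val := hij
    obtain ⟨hc1, hc2⟩ := hcon
    have hm : 3 ≤ j.val - i.val + 1 ∧ j.val - i.val + 1 < k + 3 := by
      rcases sub_val_cases i j with ⟨h1, h2⟩ | ⟨h1, h2⟩ <;>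
        rcases sub_val_cases j i with ⟨h3, h4⟩ | ⟨h3, h4⟩ <;> omega
    have hcont : cycleGraph (j.val - i.val + 1) ⊑ G := by
      refine ⟨⟨⟨fun l => f ⟨i.val + l.val, by have := l.2; omega⟩, ?_⟩, ?_⟩⟩
      · intro u v huv
        have key : ∀ u v : Fin (j.val - i.val + 1), (v - u).val = 1 →
            G.Adj (f ⟨i.val + u.val, by have := u.2; omega⟩)
              (f ⟨i.val + v.val, by have := v.2; omega⟩) := by
          intro u v h
          have hu := u.2
          have hv := v.2
          rcases sub_val_cases u v with ⟨h1, h2⟩ | ⟨h1, h2⟩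
          · apply hadj
            rw [cycleGraph_adj']
            right
            rcases sub_val_cases (⟨i.val + u.val, by omega⟩ : Fin (k + 3))
              (⟨i.val + v.val, by omega⟩ : Fin (k + 3)) with ⟨h3, h4⟩ | ⟨h3, h4⟩
            · simp only at h3 h4
              omega
            · simp only at h3 h4
              omega
          · have hv0 : v.val = 0 := by omega
            have hum : i.val + u.val = j.val := by omega
            have e1 : (⟨i.val + u.val, by omega⟩ : Fin (k + 3)) = j := Fin.ext hum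
            have e2 : (⟨i.val + v.val, by omega⟩ : Fin (k + 3)) = i := Fin.ext (by
              simp only
              omega)
            rw [e1, e2]
            exact hG.symm
        rw [cycleGraph_adj'] at huv
        rcases huv with h | h
        · exact (key v u h).symm
        · exact key u v h
      · intro u v huv
        have h1 : (⟨i.val + u.val, by have := u.2; omega⟩ : Fin (k + 3)) =
            ⟨i.val + v.val, by have := v.2; omega⟩ := hinj huv
        have h2 := congrArg Fin.val h1
        simp only at h2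
        exact Fin.ext (by omega)
    obtain ⟨b, q, hq, hql⟩ := (cycleGraph_isContained_iff (by omega)).mp hcont
    have := girth_le_length hq
    omega
  let e : Fin (k + 3) ≃ V := Equiv.ofBijective _ hbij
  refine ⟨(⟨e, ?_⟩ : cycleGraph (k + 3) ≃g G).symm⟩
  intro i j
  constructor
  · intro h
    have h' : G.Adj (f i) (f j) := h
    rcases lt_trichotomy i j with hij | hij | hij
    · exact hlt i j hij h'
    · exfalso
      rw [hij] at h'
      exact G.irrefl h'
    · exact (hlt j i hij h'.symm).symm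
  · exact hadj i j

theorem four_floor (n : ℕ) : n ^ 2 ≤ 4 * (n ^ 2 / 4) + 1 := by
  rcases Nat.even_or_odd' n with ⟨t, rfl | rfl⟩
  · have : (2 * t) ^ 2 = 4 * t ^ 2 := by ring
    omega
  · have : (2 * t + 1) ^ 2 = 4 * (t ^ 2 + t) + 1 := by ring
    omega

theorem bound_mul (n : ℕ) (hn : 3 ≤ n) :
    bound n * ((n : ℝ) * ((n : ℝ) - 1)) = ((n ^ 2 * (n ^ 2 / 4) : ℕ) : ℝ) := by
  have hn' : (3 : ℝ) ≤ n := by exact_mod_cast hn
  have hn1 : (n : ℝ) - 1 ≠ 0 := by linarith
  unfold bound
  rcases Nat.even_or_odd' n with ⟨t, ht | ht⟩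
  · have he : Even n := ⟨t, by omega⟩
    rw [if_pos he]
    have h1 : n ^ 2 / 4 = t ^ 2 := by
      rw [ht]
      have : (2 * t) ^ 2 = 4 * t ^ 2 := by ring
      omega
    rw [h1]
    have h2 : (n : ℝ) = 2 * t := by exact_mod_cast ht
    push_cast
    have h3 : (t : ℝ) = n / 2 := by linarith
    rw [h3]
    field_simp
    ring
  · have he : ¬ Even n := by
      rw [Nat.not_even_iff_odd]
      exact ⟨t, ht⟩
    rw [if_neg he]
    have h1 : n ^ 2 / 4 = t ^ 2 + t := by
      rw [ht]
      have : (2 * t + 1) ^ 2 = 4 * (t ^ 2 + t) + 1 := by ring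
      omega
    rw [h1]
    have h2 : (n : ℝ) = 2 * t + 1 := by exact_mod_cast ht
    push_cast
    have h3 : (t : ℝ) = (n - 1) / 2 := by linarith
    rw [h3]
    ring

/-- The inequality in integers. -/
theorem int_bound {V : Type} [Fintype V] (G : SimpleGraph V) (hG : G.Connected)
    (hna : ¬ G.IsAcyclic) :
    T G univ * G.girth ≤ Fintype.card V ^ 2 * (Fintype.card V ^ 2 / 4) ∧
    (G.girth < Fintype.card V →
      T G univ * G.girth < Fintype.card V ^ 2 * (Fintype.card V ^ 2 / 4)) ∧
    G.girth ≤ Fintype.card V := by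
  classical
  obtain ⟨a, w, hw, hlen⟩ := exists_girth_eq_length.mpr hna
  have h3 := three_le_girth hna
  obtain ⟨k, hk⟩ : ∃ k, G.girth = k + 3 := ⟨G.girth - 3, by omega⟩
  have h4 : cycleGraph (k + 3) ⊑ G :=
    (cycleGraph_isContained_iff (by omega)).mpr ⟨a, w, hw, by omega⟩
  obtain ⟨f⟩ := h4
  have hinj : Function.Injective (fun x => f x) := f.injective
  have hadj : ∀ a b, (cycleGraph (k + 3)).Adj a b → G.Adj (f a) (f b) :=
    fun a b hab => f.toHom.map_rel hab
  have hcardS : (univ.image (fun x => f x)).card = k + 3 := by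
    rw [Finset.card_image_of_injective _ hinj, Finset.card_univ, Fintype.card_fin]
  have hle : k + 3 ≤ Fintype.card V := by
    rw [← hcardS]
    exact Finset.card_le_univ _
  have hgrow := grow G hG (Fintype.card V - (k + 3)) (univ.image (fun x => f x))
    ⟨f 0, mem_image_of_mem _ (mem_univ _)⟩ (connected_range G k (fun x => f x) hadj) (by omega)
  have hcyc := T_cycle G hG k (fun x => f x) (fun i => hadj _ _ (adj_succ k i)) hinj
  rw [hcardS] at hgrow
  have hW : T G univ ≤ (k + 3) * ((k + 3) ^ 2 / 4) +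
      ∑ m ∈ Ico (k + 3) (Fintype.card V), m * (m + 1) := hgrow.trans (Nat.add_le_add_right hcyc _)
  rw [hk]
  set n := Fintype.card V with hn
  have hstrict : k + 3 < n → T G univ * (k + 3) < n ^ 2 * (n ^ 2 / 4) := by
    intro hlt
    have hs := sum_Ico (k + 3) n hle (by omega)
    obtain ⟨b, hb⟩ : ∃ b, n = b + 1 := ⟨n - 1, by omega⟩
    set Sg := ∑ m ∈ Ico (k + 3) n, m * (m + 1) with hSg
    have e1 : k + 3 - 1 = k + 2 := by omega
    have e2 : n - 1 = b := by omega
    rw [e1, e2, hb] at hs
    have hf4 := four_floor n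
    have hfg : 4 * ((k + 3) ^ 2 / 4) ≤ (k + 3) ^ 2 := Nat.mul_div_le _ _
    rw [hb] at hf4 ⊢
    -- integers
    have hsZ : (3 * (Sg : ℤ)) = b * (b + 1) * (b + 2) - (k + 2) * (k + 3) * (k + 4) := by
      have : (3 * (Sg : ℤ)) + (k + 2) * (k + 3) * (k + 3 + 1) = b * (b + 1) * (b + 1 + 1) := by
        exact_mod_cast hs
      linarith
    have hWZ : (T G univ : ℤ) ≤ (k + 3) * (((k + 3) ^ 2 / 4 : ℕ) : ℤ) + Sg := by
      exact_mod_cast hW
    have hfgZ : 4 * (((k + 3) ^ 2 / 4 : ℕ) : ℤ) ≤ (k + 3) ^ 2 := by exact_mod_cast hfg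
    have hf4Z : ((b : ℤ) + 1) ^ 2 ≤ 4 * (((b + 1) ^ 2 / 4 : ℕ) : ℤ) + 1 := by exact_mod_cast hf4
    have hgoal : (T G univ : ℤ) * (k + 3) < (b + 1) ^ 2 * (((b + 1) ^ 2 / 4 : ℕ) : ℤ) := by
      set x : ℤ := (((k + 3) ^ 2 / 4 : ℕ) : ℤ) with hx
      set y : ℤ := (((b + 1) ^ 2 / 4 : ℕ) : ℤ) with hy
      set g : ℤ := (k : ℤ) + 3 with hg
      have hg0 : 0 ≤ g := by
        rw [hg]
        positivity
      have hgb : g ≤ b := by
        rw [hg]
        have h5 : k + 3 ≤ b := by omega
        exact_mod_cast h5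
      have hb0 : (3 : ℤ) ≤ b := by
        have h5 : 3 ≤ b := by omega
        exact_mod_cast h5
      have hp := poly_ineq g b hg0 hgb
      have hsg : (3 * (Sg : ℤ)) = b * (b + 1) * (b + 2) - (g - 1) * g * (g + 1) := by
        rw [hsZ, hg]
        ring
      have h5 : (T G univ : ℤ) * g ≤ (g * x + Sg) * g := mul_le_mul_of_nonneg_right hWZ hg0
      have h6 : 12 * ((g * x + Sg) * g) = 3 * g ^ 2 * (4 * x) + 4 * g * (3 * Sg) := by ring
      have h7 : 3 * g ^ 2 * (4 * x) ≤ 3 * g ^ 2 * g ^ 2 :=
        mul_le_mul_of_nonneg_left hfgZ (by positivity)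
      have h8 : 3 * g ^ 2 * g ^ 2 + 4 * g * (3 * Sg) =
          4 * g * (b * (b + 1) * (b + 2)) - g ^ 4 + 4 * g ^ 2 := by
        rw [hsg]
        ring
      have h9 : (b + 1 : ℤ) ^ 2 * ((b + 1) ^ 2) ≤ (b + 1) ^ 2 * (4 * y + 1) :=
        mul_le_mul_of_nonneg_left hf4Z (by positivity)
      have h10 : (0 : ℤ) < b * (b + 2) := by positivity
      nlinarith
    exact_mod_cast hgoal
  refine ⟨?_, hstrict, hle⟩
  rcases Nat.lt_or_ge (k + 3) n with hlt | hge
  · exact (hstrict hlt).le
  · have hkn : k + 3 = n := by omega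
    rw [hkn, Finset.Ico_self, Finset.sum_empty, Nat.add_zero] at hW
    rw [hkn]
    calc T G univ * n ≤ (n * (n ^ 2 / 4)) * n := Nat.mul_le_mul_right n hW
      _ = n ^ 2 * (n ^ 2 / 4) := by ring

/-- For the cycle the bound is attained. -/
theorem cycle_attains {V : Type} [Fintype V] (G : SimpleGraph V) (k : ℕ)
    (hcard : Fintype.card V = k + 3) (h : Nonempty (G ≃g cycleGraph (k + 3))) :
    (k + 3) ^ 2 * ((k + 3) ^ 2 / 4) ≤ T G univ * G.girth := by
  obtain ⟨φ⟩ := h
  have hg : G.girth = k + 3 := by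
    have h1 : G.egirth = (cycleGraph (k + 3)).egirth := φ.egirth_eq
    have h2 : G.girth = (cycleGraph (k + 3)).girth := by
      unfold girth
      rw [h1]
    rw [h2, girth_cycle]
  have hconn : (cycleGraph (k + 3)).Connected := cycleGraph_connected
  have hG : G.Connected := φ.symm.connected_iff.mp hconn
  have hd : ∀ u v, cyc (k + 3) (φ v - φ u).val ≤ G.dist u v := by
    intro u v
    refine (cyc_le_dist k (φ u) (φ v)).trans ?_
    obtain ⟨p, hp⟩ := hG.exists_walk_length_eq_dist u v
    rw [← hp]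
    have h3 := dist_le (p.map φ.toHom)
    rw [Walk.length_map] at h3
    exact h3
  have hT : (k + 3) * ((k + 3) ^ 2 / 4) ≤ T G univ := by
    unfold T
    calc (k + 3) * ((k + 3) ^ 2 / 4) = ∑ _u : V, (k + 3) ^ 2 / 4 := by
          rw [Finset.sum_const, Finset.card_univ, hcard, smul_eq_mul]
      _ ≤ ∑ u : V, ∑ v : V, G.dist u v := by
          apply Finset.sum_le_sum
          intro u _
          rw [← sum_cyc_fin k (φ u), ← Equiv.sum_comp φ.toEquiv]
          apply Finset.sum_le_sum
          intro v _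
          exact hd u v
  rw [hg]
  calc (k + 3) ^ 2 * ((k + 3) ^ 2 / 4) = ((k + 3) * ((k + 3) ^ 2 / 4)) * (k + 3) := by ring
    _ ≤ T G univ * (k + 3) := Nat.mul_le_mul_right _ hT

/-- For every connected graph on `n ≥ 3` vertices containing a cycle, the product of average
distance and girth is at most `bound n`, with equality if and only if the graph is a cycle. -/
theorem result : ∀ (V : Type) [Fintype V] (G : SimpleGraph V), 3 ≤ Fintype.card V → G.Connected →
    ¬ G.IsAcyclic → avgDist G * (G.girth : ℝ) ≤ bound (Fintype.card V) ∧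
      (avgDist G * (G.girth : ℝ) = bound (Fintype.card V) ↔
        Nonempty (G ≃g cycleGraph (Fintype.card V))) := by
  intro V _ G hn hG hna
  obtain ⟨h1, h2, h3⟩ := int_bound G hG hna
  have hb := bound_mul (Fintype.card V) hn
  have hn' : (3 : ℝ) ≤ Fintype.card V := by exact_mod_cast hn
  have hpos : (0 : ℝ) < (Fintype.card V : ℝ) * ((Fintype.card V : ℝ) - 1) := by
    apply mul_pos <;> linarith
  have havg : avgDist G * (G.girth : ℝ) * ((Fintype.card V : ℝ) * ((Fintype.card V : ℝ) - 1)) =
      ((T G univ * G.girth : ℕ) : ℝ) := by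
    unfold avgDist T
    push_cast
    rw [div_mul_eq_mul_div, div_mul_cancel₀ _ hpos.ne']
  have hle : avgDist G * (G.girth : ℝ) ≤ bound (Fintype.card V) := by
    have h4 : avgDist G * (G.girth : ℝ) * ((Fintype.card V : ℝ) * ((Fintype.card V : ℝ) - 1)) ≤
        bound (Fintype.card V) * ((Fintype.card V : ℝ) * ((Fintype.card V : ℝ) - 1)) := by
      rw [havg, hb]
      exact_mod_cast h1
    exact le_of_mul_le_mul_right h4 hpos
  refine ⟨hle, ?_, ?_⟩
  · intro heq
    have hg : G.girth = Fintype.card V := by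
      by_contra hne
      have hlt := h2 (lt_of_le_of_ne h3 hne)
      have h4 : ((T G univ * G.girth : ℕ) : ℝ) <
          ((Fintype.card V ^ 2 * (Fintype.card V ^ 2 / 4) : ℕ) : ℝ) := by exact_mod_cast hlt
      rw [← havg, ← hb, heq] at h4
      exact lt_irrefl _ h4
    obtain ⟨k, hk⟩ : ∃ k, Fintype.card V = k + 3 := ⟨Fintype.card V - 3, by omega⟩
    have h5 := iso_of_girth G k hk hna (by omega)
    rw [hk]
    exact h5
  · intro hiso
    obtain ⟨k, hk⟩ : ∃ k, Fintype.card V = k + 3 := ⟨Fintype.card V - 3, by omega⟩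
    apply le_antisymm hle
    have h5 := cycle_attains G k hk (by rw [hk] at hiso; exact hiso)
    rw [← hk] at h5
    have h4 : bound (Fintype.card V) * ((Fintype.card V : ℝ) * ((Fintype.card V : ℝ) - 1)) ≤
        avgDist G * (G.girth : ℝ) * ((Fintype.card V : ℝ) * ((Fintype.card V : ℝ) - 1)) := by
      rw [havg, hb]
      exact_mod_cast h5
    exact le_of_mul_le_mul_right h4 hpos

end Pool.Agent.Results.MP_0edf05_co.DistanceGirth
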